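import Mathlib
import Pool.Agent.U237.LI.Stm

/-!
# Project LI, package COS (helper461)
-/

set_option autoImplicit false

namespace Pool.Agent.U461.LI

open Finset Filter Topology MeasureTheory
open Pool.Agent.U237.LI (Far)

/-- the function `|cos (2 π x)|` on the circle -/
noncomputable def phi : C(UnitAddCircle, ℂ) :=
  ⟨fun x => ((|((fourier 1 : C(UnitAddCircle, ℂ)) x).re| : ℝ) : ℂ), by fun_prop⟩

theorem fourier_real (k : ℤ) (x : ℝ) : (fourier k : C(UnitAddCircle, ℂ)) (x : UnitAddCircle) =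
    Complex.exp (2 * Real.pi * Complex.I * k * x) := by
  rw [fourier_coe_apply]
  simp

theorem phi_real (x : ℝ) :
    phi (x : UnitAddCircle) = ((|Real.cos (2 * Real.pi * x)| : ℝ) : ℂ) := by
  change ((|((fourier 1 : C(UnitAddCircle, ℂ)) (x : UnitAddCircle)).re| : ℝ) : ℂ) = _
  rw [fourier_real]
  congr 2
  have h : (2 * Real.pi * Complex.I * ((1 : ℤ) : ℂ) * x : ℂ) =
      ((2 * Real.pi * x : ℝ) : ℂ) * Complex.I := by
    push_cast; ring
  rw [h, Complex.exp_ofReal_mul_I_re]

theorem int_cos : ∫ x in (-(1 / 4) : ℝ)..(3 / 4), |Real.cos (2 * Real.pi * x)| = 2 / Real.pi := by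
  have hc : Continuous fun x : ℝ => |Real.cos (2 * Real.pi * x)| := by fun_prop
  rw [← intervalIntegral.integral_add_adjacent_intervals (b := 1 / 4)
    (hc.intervalIntegrable _ _) (hc.intervalIntegrable _ _)]
  have hpi := Real.pi_pos
  have h1 : ∫ x in (-(1 / 4) : ℝ)..(1 / 4), |Real.cos (2 * Real.pi * x)| = 1 / Real.pi := by
    have : ∫ x in (-(1 / 4) : ℝ)..(1 / 4), |Real.cos (2 * Real.pi * x)|
        = ∫ x in (-(1 / 4) : ℝ)..(1 / 4), Real.cos (2 * Real.pi * x) := by
      apply intervalIntegral.integral_congr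
      intro x hx
      rw [Set.uIcc_of_le (by norm_num)] at hx
      apply abs_of_nonneg
      apply Real.cos_nonneg_of_neg_pi_div_two_le_of_le
      · nlinarith [hx.1]
      · nlinarith [hx.2]
    rw [this, intervalIntegral.integral_comp_mul_left (fun y => Real.cos y) (by positivity),
      integral_cos]
    have e1 : 2 * Real.pi * (1 / 4) = Real.pi / 2 := by ring
    have e2 : 2 * Real.pi * (-(1 / 4)) = -(Real.pi / 2) := by ring
    rw [e1, e2, Real.sin_neg, Real.sin_pi_div_two, smul_eq_mul]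
    field_simp
    norm_num
  have h2 : ∫ x in (1 / 4 : ℝ)..(3 / 4), |Real.cos (2 * Real.pi * x)| = 1 / Real.pi := by
    have : ∫ x in (1 / 4 : ℝ)..(3 / 4), |Real.cos (2 * Real.pi * x)|
        = ∫ x in (1 / 4 : ℝ)..(3 / 4), -Real.cos (2 * Real.pi * x) := by
      apply intervalIntegral.integral_congr
      intro x hx
      rw [Set.uIcc_of_le (by norm_num)] at hx
      apply abs_of_nonpos
      apply Real.cos_nonpos_of_pi_div_two_le_of_le
      · nlinarith [hx.1]
      · nlinarith [hx.2]
    rw [this, intervalIntegral.integral_neg,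
      intervalIntegral.integral_comp_mul_left (fun y => Real.cos y) (by positivity), integral_cos]
    have e1 : 2 * Real.pi * (3 / 4) = Real.pi / 2 + Real.pi := by ring
    have e2 : 2 * Real.pi * (1 / 4) = Real.pi / 2 := by ring
    rw [e1, e2, Real.sin_add_pi, Real.sin_pi_div_two, smul_eq_mul]
    field_simp
    norm_num
  rw [h1, h2]
  ring

theorem int_exp (k : ℤ) (hk : k ≠ 0) :
    ∫ x in (-(1 / 4) : ℝ)..(3 / 4), Complex.exp (2 * Real.pi * Complex.I * k * x) = 0 := by
  have hc : (2 * Real.pi * Complex.I * k : ℂ) ≠ 0 := by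
    have := Real.pi_ne_zero
    have h3 : (k : ℂ) ≠ 0 := by exact_mod_cast hk
    simp [this, h3]
  rw [integral_exp_mul_complex hc]
  have h : (2 * Real.pi * Complex.I * k : ℂ) * ((3 / 4 : ℝ) : ℂ) =
      (2 * Real.pi * Complex.I * k : ℂ) * ((-(1 / 4) : ℝ) : ℂ) + k * (2 * Real.pi * Complex.I) := by
    push_cast; ring
  rw [h, Complex.exp_periodic.int_mul k, sub_self, zero_div]

theorem lower (x l : ℝ) (h : ∀ a : ℤ, l < |x - a|) :
    4 * l ≤ ‖Complex.exp (2 * Real.pi * Complex.I * x) - 1‖ := by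
  obtain ⟨d, hd⟩ : ∃ d : ℝ, d = x - round x := ⟨_, rfl⟩
  have hd1 : |d| ≤ 1 / 2 := by rw [hd]; exact abs_sub_round x
  have hd2 : l < |d| := by rw [hd]; exact h (round x)
  have e1 : Complex.exp (2 * Real.pi * Complex.I * x) =
      Complex.exp (Complex.I * ((2 * Real.pi * d : ℝ) : ℂ)) := by
    have : (2 * Real.pi * Complex.I * x : ℂ) =
        Complex.I * ((2 * Real.pi * d : ℝ) : ℂ) + (round x : ℤ) * (2 * Real.pi * Complex.I) := by
      rw [hd]; push_cast; ring
    rw [this, Complex.exp_periodic.int_mul]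
  rw [e1, Complex.norm_exp_I_mul_ofReal_sub_one]
  have e2 : 2 * Real.pi * d / 2 = Real.pi * d := by ring
  rw [e2, norm_mul, Real.norm_eq_abs, Real.norm_eq_abs, abs_two]
  have hpi := Real.pi_pos
  have e3 : |Real.pi * d| ≤ Real.pi / 2 := by
    rw [abs_mul, abs_of_pos hpi]
    nlinarith
  have e4 := Real.mul_abs_le_abs_sin e3
  rw [abs_mul, abs_of_pos hpi] at e4
  have e5 : 2 / Real.pi * (Real.pi * |d|) = 2 * |d| := by
    field_simp
  rw [e5] at e4
  linarith

theorem geo (k : ℤ) (θ t l : ℝ) (hl : 0 < l) (h : ∀ a : ℤ, l < |k * θ - a|) (H : ℕ) :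
    ‖∑ i ∈ range H, (fourier k : C(UnitAddCircle, ℂ)) ((((i : ℝ) * θ + t : ℝ)) : UnitAddCircle)‖ ≤
      1 / (2 * l) := by
  obtain ⟨z, hz⟩ : ∃ z : ℂ, z = Complex.exp (2 * Real.pi * Complex.I * ((k * θ : ℝ) : ℂ)) :=
    ⟨_, rfl⟩
  have h1 : ∀ i : ℕ, (fourier k : C(UnitAddCircle, ℂ)) ((((i : ℝ) * θ + t : ℝ)) : UnitAddCircle) =
      Complex.exp (2 * Real.pi * Complex.I * k * t) * z ^ i := by
    intro i
    rw [fourier_real, hz, ← Complex.exp_nat_mul, ← Complex.exp_add]
    congr 1
    push_cast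
    ring
  simp only [h1]
  rw [← Finset.mul_sum, norm_mul]
  have h2 : ‖Complex.exp (2 * Real.pi * Complex.I * k * t)‖ = 1 := by
    have : (2 * Real.pi * Complex.I * k * t : ℂ) = ((2 * Real.pi * k * t : ℝ) : ℂ) * Complex.I := by
      push_cast; ring
    rw [this, Complex.norm_exp_ofReal_mul_I]
  have hz1 : ‖z‖ = 1 := by
    have : (2 * Real.pi * Complex.I * ((k * θ : ℝ) : ℂ) : ℂ) =
        ((2 * Real.pi * (k * θ) : ℝ) : ℂ) * Complex.I := by
      push_cast; ring
    rw [hz, this, Complex.norm_exp_ofReal_mul_I]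
  have h3 : 4 * l ≤ ‖z - 1‖ := by
    rw [hz]
    exact lower _ l h
  have h4 : z ≠ 1 := by
    intro h5
    rw [h5, sub_self, norm_zero] at h3
    linarith
  rw [h2, one_mul, geom_sum_eq h4, norm_div]
  have h5 : ‖z ^ H - 1‖ ≤ 2 := by
    refine (norm_sub_le _ _).trans ?_
    rw [norm_pow, hz1, one_pow, norm_one]
    norm_num
  rw [div_le_div_iff₀ (by linarith) (by linarith)]
  nlinarith [norm_nonneg (z ^ H - 1), norm_nonneg (z - 1)]

theorem t_COS : Pool.Agent.U237.LI.S_COS := by
  intro ε hε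
  have hmem : phi ∈ (Submodule.span ℂ (Set.range (fourier (T := 1)))).topologicalClosure := by
    rw [span_fourier_closure_eq_top]
    trivial
  rw [← SetLike.mem_coe, Submodule.topologicalClosure_coe, Metric.mem_closure_iff] at hmem
  obtain ⟨T, hT, hdist⟩ := hmem (ε / 4) (by positivity)
  rw [SetLike.mem_coe, Finsupp.mem_span_range_iff_exists_finsupp] at hT
  obtain ⟨c, hc⟩ := hT
  have hTx : ∀ x : UnitAddCircle, T x = ∑ k ∈ c.support, c k * (fourier k : C(UnitAddCircle, ℂ)) x := by
    intro x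
    rw [← hc, Finsupp.sum, ContinuousMap.sum_apply]
    simp only [ContinuousMap.smul_apply, smul_eq_mul]
  have hnear : ∀ x : UnitAddCircle, ‖phi x - T x‖ ≤ ε / 4 := by
    intro x
    have := ContinuousMap.dist_apply_le_dist (f := phi) (g := T) x
    rw [dist_eq_norm] at this
    exact this.trans hdist.le
  -- the constant coefficient
  have hint : ∫ x in (-(1 / 4) : ℝ)..(3 / 4), T (x : UnitAddCircle) = c 0 := by
    simp only [hTx]
    rw [intervalIntegral.integral_finset_sum]
    · by_cases h0 : (0 : ℤ) ∈ c.support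
      · rw [Finset.sum_eq_single_of_mem 0 h0]
        · have : ∀ x : ℝ, (fourier 0 : C(UnitAddCircle, ℂ)) (x : UnitAddCircle) = 1 := by
            intro x
            rw [fourier_real]
            simp
          simp only [this]
          rw [intervalIntegral.integral_const]
          norm_num
        · intro k _ hk
          rw [intervalIntegral.integral_const_mul]
          simp only [fourier_real]
          rw [int_exp k hk, mul_zero]
      · rw [Finsupp.notMem_support_iff.1 h0]
        apply Finset.sum_eq_zero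
        intro k hk
        have hk0 : k ≠ 0 := fun h => h0 (h ▸ hk)
        rw [intervalIntegral.integral_const_mul]
        simp only [fourier_real]
        rw [int_exp k hk0, mul_zero]
    · intro k _
      apply Continuous.intervalIntegrable
      simp only [fourier_real]
      fun_prop
  have hintphi : ∫ x in (-(1 / 4) : ℝ)..(3 / 4), phi (x : UnitAddCircle) = ((2 / Real.pi : ℝ) : ℂ) := by
    simp only [phi_real]
    rw [intervalIntegral.integral_ofReal, int_cos]
  have hcoe : Continuous fun x : ℝ => (x : UnitAddCircle) := AddCircle.continuous_mk' 1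
  have hc0 : ‖c 0‖ ≤ 2 / Real.pi + ε / 4 := by
    have h1 : ‖((2 / Real.pi : ℝ) : ℂ) - c 0‖ ≤ ε / 4 := by
      rw [← hint, ← hintphi, ← intervalIntegral.integral_sub]
      · have := intervalIntegral.norm_integral_le_of_norm_le_const
          (a := -(1 / 4 : ℝ)) (b := 3 / 4) (C := ε / 4)
          (f := fun x : ℝ => phi (x : UnitAddCircle) - T (x : UnitAddCircle))
          (fun x _ => hnear _)
        refine this.trans (le_of_eq ?_)
        norm_num
      · exact (phi.continuous.comp hcoe).intervalIntegrable _ _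
      · exact (T.continuous.comp hcoe).intervalIntegrable _ _
    have h2 : ‖((2 / Real.pi : ℝ) : ℂ)‖ = 2 / Real.pi := by
      rw [Complex.norm_real, Real.norm_eq_abs, abs_of_pos (by positivity)]
    have h3 := norm_sub_norm_le (c 0) ((2 / Real.pi : ℝ) : ℂ)
    rw [norm_sub_rev] at h1
    linarith
  obtain ⟨D, hD⟩ : ∃ D : ℝ, D = ∑ k ∈ c.support, ‖c k‖ := ⟨_, rfl⟩
  have hD0 : 0 ≤ D := by rw [hD]; exact Finset.sum_nonneg fun _ _ => norm_nonneg _
  refine ⟨c.support.sup Int.natAbs, ?_⟩
  intro l hl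
  refine ⟨⌈D / (l * ε)⌉₊, ?_⟩
  intro H hH θ hθ t
  have hH1 : D / (l * ε) ≤ H := (Nat.le_ceil _).trans (by exact_mod_cast hH)
  have hDH : D * (1 / (2 * l)) ≤ ε / 2 * H := by
    rw [div_le_iff₀ (by positivity)] at hH1
    rw [mul_one_div, div_le_iff₀ (by positivity)]
    nlinarith
  have hsumk : ∀ k ∈ c.support,
      ‖∑ i ∈ range H, (fourier k : C(UnitAddCircle, ℂ)) ((((i : ℝ) * θ + t : ℝ)) : UnitAddCircle)‖ ≤
        (if k = 0 then (H : ℝ) else 0) + 1 / (2 * l) := by
    intro k hk
    by_cases hk0 : k = 0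
    · rw [if_pos hk0]
      have h1 : ‖∑ i ∈ range H,
          (fourier k : C(UnitAddCircle, ℂ)) ((((i : ℝ) * θ + t : ℝ)) : UnitAddCircle)‖ ≤ H := by
        refine (norm_sum_le _ _).trans ?_
        refine (Finset.sum_le_card_nsmul _ _ 1 ?_).trans (by simp)
        intro i _
        rw [fourier_real, hk0]
        simp
      have : 0 ≤ 1 / (2 * l) := by positivity
      linarith
    · rw [if_neg hk0, zero_add]
      apply geo k θ t l hl
      intro a
      have hb1 : 1 ≤ k.natAbs := Int.natAbs_pos.2 hk0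
      have hb2 : k.natAbs ≤ c.support.sup Int.natAbs := Finset.le_sup (f := Int.natAbs) hk
      have hb3 : (1 : ℝ) ≤ (k.natAbs : ℝ) := by exact_mod_cast hb1
      rcases Int.natAbs_eq k with h | h
      · have h1 := hθ k.natAbs hb1 hb2 a
        have h2 : (k : ℝ) = (k.natAbs : ℝ) := by
          have := congrArg (fun z : ℤ => (z : ℝ)) h
          simpa using this
        have h3 : (k : ℝ) * θ - a = (k.natAbs : ℝ) * (θ - a / (k.natAbs : ℝ)) := by
          rw [h2]
          field_simp
        rw [h3, abs_mul, abs_of_pos (by linarith)]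
        nlinarith [abs_nonneg (θ - a / (k.natAbs : ℝ))]
      · have h1 := hθ k.natAbs hb1 hb2 (-a)
        have h2 : (k : ℝ) = -(k.natAbs : ℝ) := by
          have := congrArg (fun z : ℤ => (z : ℝ)) h
          simpa using this
        have h3 : (k : ℝ) * θ - a = -((k.natAbs : ℝ) * (θ - ((-a : ℤ) : ℝ) / (k.natAbs : ℝ))) := by
          rw [h2]
          push_cast
          field_simp
          ring
        rw [h3, abs_neg, abs_mul, abs_of_pos (by linarith : (0 : ℝ) < (k.natAbs : ℝ))]
        nlinarith [abs_nonneg (θ - ((-a : ℤ) : ℝ) / (k.natAbs : ℝ))]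
  have hS : ‖∑ i ∈ range H, T ((((i : ℝ) * θ + t : ℝ)) : UnitAddCircle)‖ ≤
      ‖c 0‖ * H + D * (1 / (2 * l)) := by
    have h1 : ∑ i ∈ range H, T ((((i : ℝ) * θ + t : ℝ)) : UnitAddCircle) =
        ∑ k ∈ c.support, c k * ∑ i ∈ range H,
          (fourier k : C(UnitAddCircle, ℂ)) ((((i : ℝ) * θ + t : ℝ)) : UnitAddCircle) := by
      simp only [hTx]
      rw [Finset.sum_comm]
      simp only [Finset.mul_sum]
    rw [h1]
    refine (norm_sum_le _ _).trans ?_
    calc ∑ k ∈ c.support, ‖c k * ∑ i ∈ range H,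
          (fourier k : C(UnitAddCircle, ℂ)) ((((i : ℝ) * θ + t : ℝ)) : UnitAddCircle)‖
        ≤ ∑ k ∈ c.support, ((if k = 0 then ‖c 0‖ * H else 0) + ‖c k‖ * (1 / (2 * l))) := by
          apply Finset.sum_le_sum
          intro k hk
          rw [norm_mul]
          refine (mul_le_mul_of_nonneg_left (hsumk k hk) (norm_nonneg _)).trans (le_of_eq ?_)
          split_ifs with h
          · rw [h]; ring
          · ring
      _ = (if (0 : ℤ) ∈ c.support then ‖c 0‖ * H else 0) + D * (1 / (2 * l)) := by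
          rw [Finset.sum_add_distrib, Finset.sum_ite_eq', hD, Finset.sum_mul]
      _ ≤ ‖c 0‖ * H + D * (1 / (2 * l)) := by
          have : 0 ≤ ‖c 0‖ * H := by positivity
          split_ifs <;> linarith
  have hre : ∀ i : ℕ, |Real.cos (2 * Real.pi * ((i : ℝ) * θ + t))| ≤
      (T ((((i : ℝ) * θ + t : ℝ)) : UnitAddCircle)).re + ε / 4 := by
    intro i
    have h1 := hnear ((((i : ℝ) * θ + t : ℝ)) : UnitAddCircle)
    rw [phi_real] at h1
    have h2 := (Complex.abs_re_le_norm _).trans h1
    rw [Complex.sub_re, Complex.ofReal_re] at h2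
    have h3 := (abs_le.1 h2).2
    linarith
  calc ∑ i ∈ range H, |Real.cos (2 * Real.pi * ((i : ℝ) * θ + t))|
      ≤ ∑ i ∈ range H, ((T ((((i : ℝ) * θ + t : ℝ)) : UnitAddCircle)).re + ε / 4) :=
        Finset.sum_le_sum fun i _ => hre i
    _ = (∑ i ∈ range H, T ((((i : ℝ) * θ + t : ℝ)) : UnitAddCircle)).re + H * (ε / 4) := by
        rw [Finset.sum_add_distrib, Complex.re_sum]
        simp
    _ ≤ (‖c 0‖ * H + D * (1 / (2 * l))) + H * (ε / 4) := by
        have := (Complex.re_le_norm _).trans hS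
        linarith
    _ ≤ (2 / Real.pi + ε) * H := by
        have hH0 : (0 : ℝ) ≤ H := Nat.cast_nonneg H
        nlinarith [mul_le_mul_of_nonneg_right hc0 hH0]

end Pool.Agent.U461.LI
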